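import Mathlib

set_option autoImplicit false

open Filter Topology

namespace Pool.Agent.MP_e9a5a5_pr

/-- the defect `Φ'F(x+1) - F(x+2)` -/
noncomputable def defect (F : ℝ → ℝ) (x : ℝ) : ℝ :=
  1 - (1 - (F x + F (x + 2)) / 2) ^ 2 - F (x + 2)

/-- the contraction coefficient -/
noncomputable def coef (F : ℝ → ℝ) (x : ℝ) : ℝ :=
  (Real.sqrt (F x) + (F x + F (x + 2)) / 2) / 2

section
variable {F : ℝ → ℝ} (h0 : ∀ x, 0 ≤ F x) (h1 : ∀ x, F x ≤ 1)
  (hfix : ∀ x : ℝ, (1 - 1 / 2 * (1 - (F (x - 2) + F x) / 2) ^ 2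
      - 1 / 2 * (1 - (F x + F (x + 2)) / 2) ^ 2) ^ 2 = F x)
include h0 h1 hfix

lemma sqrt_eq (x : ℝ) : Real.sqrt (F x) = 1 - 1 / 2 * (1 - (F (x - 2) + F x) / 2) ^ 2
      - 1 / 2 * (1 - (F x + F (x + 2)) / 2) ^ 2 := by
  have ha := h0 (x - 2); have hb := h0 x; have hc := h0 (x + 2)
  have ha' := h1 (x - 2); have hb' := h1 x; have hc' := h1 (x + 2)
  have e1 : (1 - (F (x - 2) + F x) / 2) ^ 2 ≤ 1 := by nlinarith
  have e2 : (1 - (F x + F (x + 2)) / 2) ^ 2 ≤ 1 := by nlinarith
  conv_lhs => rw [← hfix x]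
  exact Real.sqrt_sq (by linarith)

lemma rec_eq (x : ℝ) : defect F x = (defect F (x - 2) + defect F x) * coef F x := by
  have hs := sqrt_eq h0 h1 hfix x
  have hq : Real.sqrt (F x) ^ 2 = F x := Real.sq_sqrt (h0 x)
  have e : x - 2 + 2 = x := by ring
  have key : defect F (x - 2) + defect F x
      = 2 * (Real.sqrt (F x) - (F x + F (x + 2)) / 2) := by
    unfold defect; rw [e, hs]; ring
  rw [key]
  unfold defect coef
  nlinarith [hq]

omit hfix in
lemma abs_defect_le (x : ℝ) : |defect F x| ≤ 1 := by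
  have hb := h0 x; have hc := h0 (x + 2)
  have hb' := h1 x; have hc' := h1 (x + 2)
  unfold defect
  rw [abs_le]
  constructor <;> nlinarith

omit h1 hfix in
lemma coef_nonneg (x : ℝ) : 0 ≤ coef F x := by
  have hb := h0 x; have hc := h0 (x + 2)
  have := Real.sqrt_nonneg (F x)
  unfold coef; linarith

lemma step_zero (x : ℝ) (hx : defect F (x - 2) = 0) : defect F x = 0 := by
  have hr := rec_eq h0 h1 hfix x
  rw [hx, zero_add] at hr
  by_cases hc : coef F x = 1
  · have hs : Real.sqrt (F x) ≤ 1 := Real.sqrt_le_one.mpr (h1 x)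
    have hb' := h1 x; have hc' := h1 (x + 2)
    unfold coef at hc
    have e1 : F x = 1 := by linarith
    have e2 : F (x + 2) = 1 := by linarith
    unfold defect; rw [e1, e2]; ring
  · have : defect F x * (1 - coef F x) = 0 := by linarith
    rcases mul_eq_zero.mp this with h | h
    · exact h
    · exact absurd (by linarith) hc

lemma step_half (x : ℝ) (hx : coef F x ≤ 1 / 3) :
    |defect F x| ≤ 1 / 2 * |defect F (x - 2)| := by
  have hr := rec_eq h0 h1 hfix x
  have hc := coef_nonneg h0 x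
  have h2 : |defect F x| ≤ (|defect F (x - 2)| + |defect F x|) * (1 / 3) := by
    calc |defect F x| = |defect F (x - 2) + defect F x| * coef F x := by
          conv_lhs => rw [hr]
          rw [abs_mul, abs_of_nonneg hc]
      _ ≤ (|defect F (x - 2)| + |defect F x|) * (1 / 3) :=
          mul_le_mul (abs_add_le _ _) hx hc (by positivity)
  linarith

lemma defect_zero_low (T : ℝ) (hT : ∀ x ≤ T, coef F x ≤ 1 / 3) (x : ℝ) (hx : x ≤ T) :
    defect F x = 0 := by
  have key : ∀ m : ℕ, ∀ y ≤ T, |defect F y| ≤ (1 / 2) ^ m := by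
    intro m
    induction m with
    | zero => intro y _; simpa using abs_defect_le h0 h1 y
    | succ m ih =>
      intro y hy
      have h2 := step_half h0 h1 hfix y (hT y hy)
      have h3 := ih (y - 2) (by linarith)
      rw [pow_succ]; linarith
  have hlim : Tendsto (fun m : ℕ => ((1 : ℝ) / 2) ^ m) atTop (𝓝 0) :=
    tendsto_pow_atTop_nhds_zero_of_lt_one (by norm_num) (by norm_num)
  have : |defect F x| ≤ 0 := ge_of_tendsto' hlim (fun m => key m x hx)
  exact abs_nonpos_iff.mp this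

lemma defect_zero (hbot : Tendsto F atBot (𝓝 0)) (x : ℝ) : defect F x = 0 := by
  have hev : ∀ᶠ y in atBot, F y ≤ 1 / 9 :=
    hbot.eventually (ge_mem_nhds (by norm_num : (0 : ℝ) < 1 / 9))
  obtain ⟨T, hT⟩ := eventually_atBot.mp hev
  have hco : ∀ y ≤ T - 2, coef F y ≤ 1 / 3 := by
    intro y hy
    have a1 := hT y (by linarith)
    have a2 := hT (y + 2) (by linarith)
    have a3 : Real.sqrt (F y) ≤ 1 / 3 := by
      rw [Real.sqrt_le_iff]; constructor <;> linarith
    unfold coef; linarith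
  have key : ∀ m : ℕ, ∀ y ≤ T - 2 + 2 * m, defect F y = 0 := by
    intro m
    induction m with
    | zero => intro y hy; exact defect_zero_low h0 h1 hfix _ hco y (by simpa using hy)
    | succ m ih =>
      intro y hy
      refine step_zero h0 h1 hfix y (ih _ ?_)
      push_cast at hy; linarith
  obtain ⟨m, hm⟩ := exists_nat_ge ((x - (T - 2)) / 2)
  exact key m x (by linarith)

lemma main_of_bounds (hbot : Tendsto F atBot (𝓝 0)) (x : ℝ) :
    F (x + 2) = 2 * Real.sqrt (F x) - F x := by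
  have a1 := defect_zero h0 h1 hfix hbot x
  have a2 := defect_zero h0 h1 hfix hbot (x - 2)
  have hs := sqrt_eq h0 h1 hfix x
  have e : x - 2 + 2 = x := by ring
  unfold defect at a1 a2
  rw [e] at a2
  linarith

end

theorem main (F : ℝ → ℝ) (hmono : Monotone F) (hbot : Tendsto F atBot (𝓝 0))
    (htop : Tendsto F atTop (𝓝 1))
    (hfix : ∀ x : ℝ, (1 - 1 / 2 * (1 - (F (x - 2) + F x) / 2) ^ 2
      - 1 / 2 * (1 - (F x + F (x + 2)) / 2) ^ 2) ^ 2 = F x) (x : ℝ) :
    F (x + 2) = 2 * Real.sqrt (F x) - F x :=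
  main_of_bounds (fun y => hmono.le_of_tendsto hbot y) (fun y => hmono.ge_of_tendsto htop y)
    hfix hbot x

end Pool.Agent.MP_e9a5a5_pr
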